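import Pool.Agent.W290.RO.Core0
import Pool.Agent.W932.RO.Stm

/-!
RO-CORE: the hidden marked block.
-/

set_option autoImplicit false

namespace Pool.Agent.W290.RO

open Pool.Agent.W932.RO

theorem main : StmCore := by
  intro Y Ω _ _ _ w hw0 hw1 mark T hT R tch htch Q p ε hQ hp hε hR
  exact core Y Ω w hw0 hw1 mark T hT R tch htch Q p ε hQ hp hε hR

end Pool.Agent.W290.RO
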