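import Pool.Agent.H568R2.Prob

/-!
The hidden marked block: an abstract lemma on product measures.
-/

set_option autoImplicit false

namespace Pool.Agent.W290.RO

open Finset H568R2

open Classical in
theorem core (Y Ω : Type) [Fintype Y] [DecidableEq Y] [Fintype Ω] (w : Ω → ℝ)
    (hw0 : ∀ a, 0 ≤ w a) (hw1 : ∑ a, w a = 1) (mark T : Ω → Prop) (hT : ∀ a, T a → mark a)
    (R : (Y → Ω) → Prop) (tch : Y → (Y → Ω) → Prop)
    (htch : ∀ y z a, tch y (Function.update z y a) ↔ tch y z) (Q p ε : ℝ)
    (hQ : ∀ z, ((univ.filter (fun y => tch y z)).card : ℝ) ≤ Q)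
    (hp : ∑ a ∈ univ.filter mark, w a = p) (hε : 0 ≤ ε)
    (hR : ∀ y z, ¬ tch y z → ε * p ≤
      ∑ a, w a * (if mark a ∧ ¬ (R (Function.update z y a) ↔ T a) then (1 : ℝ) else 0)) :
    Ex w (fun z : Y → Ω => if (R z ↔ ∃ y, T (z y)) then (1 : ℝ) else 0) ≤
      1 - ε * p * (Fintype.card Y * (1 - p) ^ (Fintype.card Y - 1) - Q) := by
  have hp0 : 0 ≤ p := hp ▸ Finset.sum_nonneg fun a _ => hw0 a
  have hεp : 0 ≤ ε * p := mul_nonneg hε hp0
  set U : Y → (Y → Ω) → Prop := fun y z => mark (z y) ∧
    (∀ y' ∈ univ.erase y, ¬ mark (z y')) ∧ ¬ tch y z ∧ ¬ (R z ↔ T (z y)) with hU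
  have h1 : ∀ z : Y → Ω, (if (R z ↔ ∃ y, T (z y)) then (1 : ℝ) else 0) ≤
      1 - ∑ y, (if U y z then (1 : ℝ) else 0) := by
    intro z
    by_cases h : R z ↔ ∃ y, T (z y)
    · rw [if_pos h]
      have h2 : ∀ y ∈ (univ : Finset Y), (if U y z then (1 : ℝ) else 0) = 0 := by
        intro y _
        rw [if_neg]
        rintro ⟨_, hn, _, hd⟩
        apply hd
        rw [h]
        constructor
        · rintro ⟨y', hy'⟩
          by_cases hyy : y' = y
          · rwa [← hyy]
          · exact absurd (hT _ hy') (hn y' (Finset.mem_erase.2 ⟨hyy, Finset.mem_univ _⟩))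
        · intro h3
          exact ⟨y, h3⟩
      rw [Finset.sum_eq_zero h2]
      norm_num
    · rw [if_neg h, Finset.sum_boole]
      have h3 : (univ.filter (fun y => U y z)).card ≤ 1 := by
        rw [Finset.card_le_one]
        intro a ha b hb
        rw [Finset.mem_filter] at ha hb
        by_contra hab
        exact ha.2.2.1 b (Finset.mem_erase.2 ⟨fun e => hab e.symm, Finset.mem_univ _⟩) hb.2.1
      have h4 : ((univ.filter (fun y => U y z)).card : ℝ) ≤ 1 := by exact_mod_cast h3
      linarith
  have h2 : ∀ y : Y, ε * p * ((1 - p) ^ (Fintype.card Y - 1) -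
      Ex w (fun z : Y → Ω => if tch y z then (1 : ℝ) else 0)) ≤
      Ex w (fun z : Y → Ω => if U y z then (1 : ℝ) else 0) := by
    intro y
    rw [Ex_resample hw1 (fun z : Y → Ω => if U y z then (1 : ℝ) else 0) y]
    have h3 : Ex w (fun z : Y → Ω => ε * p *
        ((1 : ℝ) * (if ∀ y' ∈ univ.erase y, ¬ mark (z y') then (1 : ℝ) else 0) +
          (-1) * (if tch y z then (1 : ℝ) else 0))) ≤
        Ex w (fun z : Y → Ω => ∑ a, w a * (if U y (Function.update z y a) then (1 : ℝ) else 0)) := by
      apply Ex_mono hw0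
      intro z
      have hUu : ∀ a, U y (Function.update z y a) ↔ ((∀ y' ∈ univ.erase y, ¬ mark (z y')) ∧
          ¬ tch y z) ∧ (mark a ∧ ¬ (R (Function.update z y a) ↔ T a)) := by
        intro a
        have e1 : (∀ y' ∈ univ.erase y, ¬ mark (Function.update z y a y')) ↔
            (∀ y' ∈ univ.erase y, ¬ mark (z y')) := by
          refine forall₂_congr fun y' hy' => ?_
          rw [Function.update_of_ne (Finset.mem_erase.1 hy').1]
        simp only [hU, Function.update_self, htch]
        rw [e1]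
        tauto
      by_cases hn : (∀ y' ∈ univ.erase y, ¬ mark (z y'))
      · by_cases ht : tch y z
        · rw [if_pos hn, if_pos ht]
          have : 0 ≤ ∑ a, w a * (if U y (Function.update z y a) then (1 : ℝ) else 0) :=
            Finset.sum_nonneg fun a _ => mul_nonneg (hw0 a) (by split_ifs <;> norm_num)
          linarith
        · rw [if_pos hn, if_neg ht]
          have e2 : ∑ a, w a * (if U y (Function.update z y a) then (1 : ℝ) else 0) =
              ∑ a, w a * (if mark a ∧ ¬ (R (Function.update z y a) ↔ T a) then (1 : ℝ) else 0) := by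
            refine Finset.sum_congr rfl fun a _ => ?_
            congr 1
            refine if_congr ?_ rfl rfl
            rw [hUu a]
            exact and_iff_right ⟨hn, ht⟩
          rw [e2]
          have := hR y z ht
          linarith
      · rw [if_neg hn]
        have h5 : 0 ≤ ∑ a, w a * (if U y (Function.update z y a) then (1 : ℝ) else 0) :=
          Finset.sum_nonneg fun a _ => mul_nonneg (hw0 a) (by split_ifs <;> norm_num)
        have h6 : (0 : ℝ) ≤ (if tch y z then (1 : ℝ) else 0) := by split_ifs <;> norm_num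
        have h7 := mul_nonneg hεp h6
        linarith
    refine le_trans (le_of_eq ?_) h3
    rw [Ex_smul, Ex_add, Ex_smul w (-1)]
    rw [Ex_indep hw1 (fun a => ¬ mark a) (univ.erase y) (fun _ => (1 : ℝ))
      (fun _ _ _ _ => rfl), Ex_const hw1]
    have e3 : ∑ a ∈ univ.filter (fun a => ¬ mark a), w a = 1 - p := by
      have := Finset.sum_filter_add_sum_filter_not (univ : Finset Ω) mark w
      linarith
    rw [e3, Finset.card_erase_of_mem (Finset.mem_univ y), Finset.card_univ]
    ring
  have h3 : Ex w (fun z : Y → Ω => if (R z ↔ ∃ y, T (z y)) then (1 : ℝ) else 0) ≤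
      Ex w (fun z : Y → Ω => 1 + (-1) * ∑ y, (if U y z then (1 : ℝ) else 0)) := by
    apply Ex_mono hw0
    intro z
    have := h1 z
    linarith
  rw [Ex_add, Ex_const hw1, Ex_smul, Ex_sum] at h3
  have h4 : ∑ y : Y, Ex w (fun z : Y → Ω => if tch y z then (1 : ℝ) else 0) ≤ Q := by
    rw [← Ex_sum]
    have : Ex w (fun z : Y → Ω => ∑ y, (if tch y z then (1 : ℝ) else 0)) ≤
        Ex w (fun _ : Y → Ω => Q) := by
      apply Ex_mono hw0
      intro z
      rw [Finset.sum_boole]
      exact hQ z
    rwa [Ex_const hw1] at this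
  have h5 := Finset.sum_le_sum (fun y (_ : y ∈ (univ : Finset Y)) => h2 y)
  rw [← Finset.mul_sum, Finset.sum_sub_distrib, Finset.sum_const, Finset.card_univ,
    nsmul_eq_mul] at h5
  have h6 : ε * p * (Fintype.card Y * (1 - p) ^ (Fintype.card Y - 1) - Q) ≤
      ε * p * (Fintype.card Y * (1 - p) ^ (Fintype.card Y - 1) -
        ∑ y : Y, Ex w (fun z : Y → Ω => if tch y z then (1 : ℝ) else 0)) :=
    mul_le_mul_of_nonneg_left (by linarith) hεp
  linarith

end Pool.Agent.W290.RO
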